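import Pool.Agent.H.MP_0e620a_ag.Formula

/-!
# The exact primality threshold of the LSS ideal of the complete graph
-/

open MvPolynomial

namespace Pool.Agent.Results.MP_0e620a_ag.ExactThreshold

universe u

/-- The ideal `L_G(d)` of the graph `G` on `{0, ..., n - 1}` over the field `k`, in the
polynomial ring in the variables `y_{i l} = X (i, l)`, `i < n`, `l < d`: it is generated by the
polynomials `Σ_l y_{i l} y_{j l}` for all edges `{i, j}` of `G`. -/
noncomputable def lssIdeal (k : Type u) [Field k] {n : ℕ} (G : SimpleGraph (Fin n)) (d : ℕ) :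
    Ideal (MvPolynomial (Fin n × Fin d) k) :=
  Ideal.span {f | ∃ i j : Fin n, G.Adj i j ∧ f = ∑ l : Fin d, X (i, l) * X (j, l)}

/-- The real number `x_n = (√(8 n - 7) - 1) / 2`, the nonnegative solution of
`x (x + 1) / 2 = n - 1` (for `n ≥ 1`). -/
noncomputable def triangularRoot (n : ℕ) : ℝ := (√(8 * (n : ℝ) - 7) - 1) / 2

/-- The value `2 n - ⌊x_n⌋ - ⌈x_n⌉` for `n ≥ 2`, and the value `1` for `n ≤ 1`. -/
noncomputable def primalityThreshold (n : ℕ) : ℕ :=
  if n ≤ 1 then 1 else 2 * n - ⌊triangularRoot n⌋₊ - ⌈triangularRoot n⌉₊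

lemma threshold_eq {n : ℕ} (hn : 2 ≤ n) :
    primalityThreshold n = Pool.Agent.H.MP_0e620a_ag.primeThreshold n := by
  rw [primalityThreshold, if_neg (by omega)]
  exact Pool.Agent.H.MP_0e620a_ag.formula_eq hn

open Pool.Agent.H.MP_0e620a_ag in
lemma lssIdeal_top (k : Type u) [Field k] (n d : ℕ) :
    lssIdeal k (⊤ : SimpleGraph (Fin n)) d = rowIdeal k d n := by
  rw [lssIdeal, rowIdeal]
  congr 1
  ext f
  constructor
  · rintro ⟨i, j, hij, rfl⟩
    exact ⟨i, j, hij, i.2, j.2, rfl⟩
  · rintro ⟨i, j, hij, -, -, rfl⟩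
    exact ⟨i, j, hij, rfl⟩

/-- For every field `k` and every `n`, the ideal of the off-diagonal entries of `Y Yᵀ`, for `Y` an
`n × d` matrix of variables with `d ≥ 1`, is prime if and only if `d ≥ primalityThreshold n`;
hence `primalityThreshold n` is the least `d ≥ 1` such that the ideal is prime for all `d' ≥ d`. -/
theorem result (k : Type u) [Field k] (n : ℕ) :
    (∀ d : ℕ, 1 ≤ d →
      ((lssIdeal k (⊤ : SimpleGraph (Fin n)) d).IsPrime ↔ primalityThreshold n ≤ d)) ∧
    IsLeast {d : ℕ | 1 ≤ d ∧ ∀ d' : ℕ, d ≤ d' →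
      (lssIdeal k (⊤ : SimpleGraph (Fin n)) d').IsPrime} (primalityThreshold n) := by
  have h1 : 1 ≤ primalityThreshold n := by
    by_cases hn : n ≤ 1
    · rw [primalityThreshold, if_pos hn]
    · rw [threshold_eq (by omega)]
      have := Pool.Agent.H.MP_0e620a_ag.threshold_ge (n := n) (by omega)
      omega
  have h2 : ∀ d : ℕ, 1 ≤ d →
      ((lssIdeal k (⊤ : SimpleGraph (Fin n)) d).IsPrime ↔ primalityThreshold n ≤ d) := by
    intro d hd
    by_cases hn : n ≤ 1
    · have h3 : primalityThreshold n = 1 := by rw [primalityThreshold, if_pos hn]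
      have h4 : lssIdeal k (⊤ : SimpleGraph (Fin n)) d = ⊥ := by
        rw [lssIdeal, Ideal.span_eq_bot]
        rintro f ⟨i, j, hij, rfl⟩
        exfalso
        have : i = j := by
          apply Fin.ext
          omega
        exact hij.ne this
      rw [h3, h4]
      exact ⟨fun _ => hd, fun _ => Ideal.isPrime_bot⟩
    · rw [lssIdeal_top, threshold_eq (by omega)]
      exact Pool.Agent.H.MP_0e620a_ag.prime_iff (by omega) hd
  refine ⟨h2, ⟨h1, fun d' hd' => (h2 d' (h1.trans hd')).2 hd'⟩, ?_⟩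
  rintro d ⟨hd1, hd2⟩
  exact (h2 d hd1).1 (hd2 d le_rfl)

end Pool.Agent.Results.MP_0e620a_ag.ExactThreshold
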